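import Pool.Agent.Run7.h592.Stmt
import Pool.Agent.Run7.h592.Final

/-!
# A rationally elliptic quasi-projective variety whose cohomology is not of Hodge-Tate type

Negative answer to Q1 of MP_2059f1_ag. The variety `X` is the symmetric square of the smooth affine
threefold `x₁² + x₂² + x₃² = z³ - z`. Its rational cohomology is that of `S³ × S³`; it is simply
connected, and the rational Whitehead theorem and the finiteness of the rational homotopy of the
3-sphere (all proved in the imported files) show that it is rationally elliptic. Its `H³` receives
the `H¹` of the elliptic curve `w² = z³ - z` (twisted by `-1`).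

The definitions used in the statement are in `Run7/h592/Stmt.lean`. Deligne's mixed Hodge
structures are one instance of `IsHodgeTheory`.
-/

set_option autoImplicit false

namespace Pool.Agent.Results.MP_2059f1_ag.NotHodgeTate

open Run7.h592.St

/-- There are an irreducible, rationally elliptic complex quasi-projective variety `X`, a variety
`A`, a smooth projective variety `Z` and regular maps `a : A → X` and `b : A → Z`, both nonzero on
`H³(-; ℚ)`, with `dim H³(A; ℚ) ≤ 2`; and in every functorial mixed Hodge structure on the
cohomology of the complex quasi-projective varieties which is pure on smooth projective varieties,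
`X` has a nonzero mixed Hodge number `h^{3,p,q}` with `p + q = 3` and `p ≠ q`. -/
theorem result : ∃ (X A Z : Var) (a : Mor A X) (b : Mor A Z),
    IsIrreducible X ∧ RationallyElliptic X.Sp ∧ IsProjective Z ∧ IsSmooth Z ∧
    a.NonzeroOn 3 ∧ b.NonzeroOn 3 ∧ DimLE (A.cohomology 3) 2 ∧
    ∀ D : (∀ (V : Var) (k : ℕ), Fil (V.cohomology k)), IsHodgeTheory D →
      ∃ p q : ℤ, p ≠ q ∧ p + q = 3 ∧ hodgeNumber (D X 3) p q ≠ 0 :=
  Run7.h592.St.final

end Pool.Agent.Results.MP_2059f1_ag.NotHodgeTate
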